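import Mathlib

set_option autoImplicit false

namespace Pool.Agent.H.MP_8a0948_an

open Set Filter Topology BoundedContinuousFunction

noncomputable def ind (A : Set ℕ) : ℕ →ᵇ ℝ := BoundedContinuousFunction.indicator A (isClopen_discrete A)

def IsQ (ε : ℝ) (m : StrongDual ℝ (ℕ →ᵇ ℝ)) : Prop :=
  (∀ A, m (ind A) ∈ Icc (0 : ℝ) 1) ∧ (∀ A : Set ℕ, A.Finite → m (ind A) = 0) ∧
    ∀ g : ℕ → ℕ, (∀ k, (g ⁻¹' {k}).Finite) → ∃ A, InjOn g A ∧ ε ≤ m (ind A)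

variable {X : Type} [NormedAddCommGroup X] [NormedSpace ℝ X]

def LOrth (x : ℕ → X) : Prop :=
  (∀ n, ‖x n‖ ≤ 1) ∧ ∀ y, Tendsto (fun n => ‖y + x n‖) atTop (𝓝 (1 + ‖y‖))

def IsLim (m : StrongDual ℝ (ℕ →ᵇ ℝ)) (x : ℕ → X) (z : StrongDual ℝ (StrongDual ℝ X)) : Prop :=
  ∀ (f : StrongDual ℝ X) (s : ℕ →ᵇ ℝ), (∀ n, s n = f (x n)) → z f = m s

def Ineq (ε : ℝ) (z : StrongDual ℝ (StrongDual ℝ X)) : Prop :=
  ∀ y : X, ‖y‖ + ε * ‖z‖ ≤ ‖NormedSpace.inclusionInDoubleDual ℝ X y + z‖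

def Q1 : Prop :=
  ∀ (ε : ℝ) (m : StrongDual ℝ (ℕ →ᵇ ℝ)), 0 < ε → IsQ ε m →
    ∀ (X : Type) [NormedAddCommGroup X] [NormedSpace ℝ X] [CompleteSpace X] (x : ℕ → X)
      (z : StrongDual ℝ (StrongDual ℝ X)), LOrth x → IsLim m x z → Ineq ε z

end Pool.Agent.H.MP_8a0948_an
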