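import Mathlib
import Pool.Agent.H.MP_8a0948_an.Defs
import Pool.Agent.H.MP_aca27d_an.A

set_option autoImplicit false

namespace Pool.Agent.H.MP_8a0948_an

open Set Filter Topology BoundedContinuousFunction
open scoped Classical

theorem dirac (W : Ultrafilter ℕ) : ∃ m : StrongDual ℝ (ℕ →ᵇ ℝ),
    (∀ s : ℕ →ᵇ ℝ, Tendsto s W (𝓝 (m s))) ∧ ∀ A, m (ind A) = if A ∈ W then 1 else 0 := by
  obtain ⟨m, -, h⟩ := (WeakDual.isCompact_closedBall (0 : StrongDual ℝ (ℕ →ᵇ ℝ)) 1).ultrafilter_le_nhds
    (W.map fun n => StrongDual.toWeakDual (evalCLM ℝ n)) (by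
      rw [Ultrafilter.coe_map, le_principal_iff, mem_map]
      exact univ_mem' fun n => by
        simpa using ContinuousLinearMap.opNorm_le_bound (evalCLM ℝ n : StrongDual ℝ (ℕ →ᵇ ℝ))
          zero_le_one fun s => by simpa using s.norm_coe_le_norm n)
  have h1 : ∀ s : ℕ →ᵇ ℝ, Tendsto s W (𝓝 (m s)) := fun s =>
    ((WeakDual.eval_continuous s).tendsto _).comp h
  refine ⟨WeakDual.toStrongDual m, h1, fun A => tendsto_nhds_unique (h1 _)
    (tendsto_const_nhds.congr' ?_)⟩
  split_ifs with hA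
  · filter_upwards [hA] with n hn using (indicator_of_mem hn (1 : ℕ → ℝ)).symm
  · filter_upwards [Ultrafilter.compl_mem_iff_notMem.2 hA] with n hn using
      (indicator_of_notMem hn (1 : ℕ → ℝ)).symm

theorem chain {I : Type} [LinearOrder I] (S : Set I) (f : I → Set ℕ)
    (h : ∀ u ∈ S, (f u).Infinite ∧ ∀ v < u, (f u \ f v).Finite) :
    (cofinite ⊓ ⨅ u ∈ S, 𝓟 (f u)).NeBot := by
  rcases S.eq_empty_or_nonempty with rfl | ⟨u0, h0⟩
  · simpa using cofinite_neBot
  have h1 : ∀ u v : S, u ≤ v → cofinite ⊓ 𝓟 (f v) ≤ cofinite ⊓ 𝓟 (f u) := fun u v huv => by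
    rcases huv.eq_or_lt with rfl | h1
    · rfl
    refine le_inf inf_le_left (le_principal_iff.2 (mem_inf_principal.2 (((h v v.2).2 u h1).subset ?_)))
    intro n hn
    simpa using hn
  exact (iInf_neBot_of_directed (f := fun u : S => cofinite ⊓ 𝓟 (f u))
    (fun u v => ⟨max u v, h1 _ _ (le_max_left _ _), h1 _ _ (le_max_right _ _)⟩)
    fun u => (h u u.2).1.cofinite_inf_principal_neBot).mono (le_inf
      ((iInf_le _ ⟨u0, h0⟩).trans inf_le_left)
      (le_iInf₂ fun u hu => (iInf_le _ ⟨u, hu⟩).trans inf_le_right))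

theorem qpoint (hc : Cardinal.continuum.{0} = Cardinal.aleph 1) : ∃ m, IsQ 1 m := by
  let I := (Cardinal.aleph 1 : Cardinal.{0}).ord.ToType
  obtain ⟨e⟩ : Nonempty (I ≃ (ℕ → ℕ)) := Cardinal.eq.1 (by simp [I, ← hc])
  obtain ⟨f, hf⟩ := Pool.Agent.H.MP_aca27d_an.wf_choice (I := I) (fun t (f : I → Set ℕ) a =>
    (a.Infinite ∧ ∀ v < t, (a \ f v).Finite) ∧ ((∀ k, (e t ⁻¹' {k}).Finite) → InjOn (e t) a))
    (fun t f g a h h' => ⟨⟨h'.1.1, fun v hv => h v hv ▸ h'.1.2 v hv⟩, h'.2⟩) fun t f h => by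
      haveI := chain (Iio t) f fun u hu => (h u hu).1
      have h1 : (Iio t).Countable := by
        rw [← Cardinal.le_aleph0_iff_set_countable, ← Order.lt_succ_iff, Cardinal.succ_aleph0]
        exact Cardinal.mk_Iio_ord_toType t
      haveI : (⨅ u ∈ Iio t, 𝓟 (f u)).IsCountablyGenerated := by
        haveI := h1.to_subtype
        rw [← iInf_subtype'']
        infer_instance
      haveI : (cofinite : Filter ℕ).IsCountablyGenerated := Nat.cofinite_eq_atTop ▸ inferInstance
      obtain ⟨s, hs⟩ := exists_seq_tendsto (cofinite ⊓ ⨅ u ∈ Iio t, 𝓟 (f u))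
      obtain ⟨g, h2, h3⟩ : ∃ g : ℕ → ℕ, Tendsto g cofinite atTop ∧
          ((∀ k, (e t ⁻¹' {k}).Finite) → g = e t) := by
        by_cases h : ∀ k, (e t ⁻¹' {k}).Finite
        · exact ⟨e t, Nat.cofinite_eq_atTop ▸ Tendsto.cofinite_of_finite_preimage_singleton h,
            fun _ => rfl⟩
        · exact ⟨id, Nat.cofinite_eq_atTop.le, fun h' => absurd h' h⟩
      obtain ⟨φ, h4, h5⟩ := strictMono_subseq_of_tendsto_atTop (h2.comp (hs.mono_right inf_le_left))
      refine ⟨range (s ∘ φ), ⟨infinite_range_of_injective (Function.Injective.of_comp h5.injective),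
        fun v hv => ?_⟩, fun h => ?_⟩
      · have := (hs.comp h4.tendsto_atTop).mono_right (inf_le_right.trans (iInf₂_le v hv))
        rw [tendsto_principal, ← Nat.cofinite_eq_atTop] at this
        refine (Set.Finite.image (s ∘ φ) this).subset ?_
        rintro _ ⟨⟨n, rfl⟩, hn⟩
        exact ⟨n, hn, rfl⟩
      · rw [← h3 h]
        rintro _ ⟨i, rfl⟩ _ ⟨j, rfl⟩ hij
        rw [h5.injective hij]
  haveI := chain univ f fun u _ => (hf u).1
  have hW := Ultrafilter.of_le (cofinite ⊓ ⨅ u ∈ univ, 𝓟 (f u))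
  obtain ⟨m, -, hm⟩ := dirac (Ultrafilter.of (cofinite ⊓ ⨅ u ∈ univ, 𝓟 (f u)))
  refine ⟨m, fun A => by rw [hm]; split_ifs <;> simp, fun A hA => ?_, fun g hg => ?_⟩
  · rw [hm, if_neg (Ultrafilter.compl_mem_iff_notMem.1 (hW.trans inf_le_left hA.compl_mem_cofinite))]
  · obtain ⟨t, rfl⟩ := e.surjective g
    refine ⟨f t, (hf t).2 hg, ?_⟩
    rw [hm]
    exact (if_pos (le_principal_iff.1 (hW.trans (inf_le_right.trans (iInf₂_le t trivial))))).ge

def D : Set (Option ℕ → Bool) :=
  {d | ∀ m n : ℕ, m.sqrt = n.sqrt → m = n ∨ d (some m) = d none ∨ d (some n) = d none}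

instance : CompactSpace D := isCompact_iff_compactSpace.1 (IsClosed.isCompact (by
  simp only [D, ofPred_forall, ofPred_or]
  exact isClosed_iInter fun _ => isClosed_iInter fun _ => isClosed_iInter fun _ =>
    isClosed_const.union ((isClosed_eq (by fun_prop) (by fun_prop)).union
      (isClosed_eq (by fun_prop) (by fun_prop)))))

def sg (b : Bool) : ℝ := if b then 1 else -1

theorem abs_sg (b : Bool) : |sg b| = 1 := by cases b <;> simp [sg]

def co (o : Option ℕ) : C(D, ℝ) := ⟨fun d => sg (d.1 o), (continuous_of_discreteTopology (f := sg)).comp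
  ((continuous_apply o).comp continuous_subtype_val)⟩

theorem co_le (o : Option ℕ) : ‖co o‖ ≤ 1 :=
  (ContinuousMap.norm_le _ zero_le_one).2 fun _ => (abs_sg _).le

instance : Nonempty D := ⟨⟨fun _ => true, fun _ _ _ => Or.inr (Or.inl rfl)⟩⟩

theorem lorth : LOrth fun n => co (some n) := by
  refine ⟨fun n => co_le _, fun F => ?_⟩
  obtain ⟨d, -, hd⟩ := isCompact_univ.exists_isMaxOn univ_nonempty F.continuous.abs.continuousOn
  have h1 : ‖F‖ ≤ |F d| := (ContinuousMap.norm_le _ (abs_nonneg _)).2 fun x => hd trivial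
  let s : Bool := decide (0 ≤ F d)
  let e : ℕ → D := fun n => ⟨fun o => match o with
    | none => d.1 none
    | some m => if m.sqrt = n.sqrt then (if m = n then s else d.1 none) else d.1 (some m),
    fun a b h => by
      have := d.2 a b h
      by_cases h1 : a.sqrt = n.sqrt <;> by_cases h2 : a = n <;> by_cases h3 : b = n <;> simp_all⟩
  have h2 : Tendsto e atTop (𝓝 d) := tendsto_subtype_rng.2 (tendsto_pi_nhds.2 fun o => by
    cases o with
    | none => exact tendsto_const_nhds
    | some m =>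
      refine tendsto_const_nhds.congr' ?_
      filter_upwards [eventually_ge_atTop ((m.sqrt + 1) ^ 2)] with n hn
      exact (if_neg (Nat.le_sqrt'.2 hn : _ < _).ne).symm)
  have h3 := (((F.continuous.tendsto d).comp h2).add_const (sg s)).abs
  have h4 : |F d + sg s| = 1 + ‖F‖ := by
    rw [h1.antisymm (F.norm_coe_le_norm d)]
    by_cases h : 0 ≤ F d
    · simp only [s, sg, h, decide_true, if_true]
      rw [abs_of_nonneg h, abs_of_nonneg (by linarith), add_comm]
    · simp only [s, sg, h, decide_false, Bool.false_eq_true, if_false]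
      rw [abs_of_neg (not_le.1 h), abs_of_neg (by linarith)]; ring
  refine tendsto_of_tendsto_of_tendsto_of_le_of_le (h4 ▸ h3) tendsto_const_nhds (fun n => ?_)
    fun n => (norm_add_le_of_le le_rfl (co_le _)).trans (add_comm _ _).le
  simpa [co, e] using (F + co (some n)).norm_coe_le_norm (e n)

def B (k : ℕ) : Finset ℕ := Finset.Ico (k ^ 2) ((k + 1) ^ 2)

theorem mem_B {k n : ℕ} : n ∈ B k ↔ k = n.sqrt := by rw [B, Finset.mem_Ico, Nat.eq_sqrt']

def G : Filter ℕ where
  sets := {S | ∃ C : ℝ, ∀ k, ((B k).filter (· ∉ S)).card ≤ C}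
  univ_sets := ⟨0, by simp⟩
  sets_of_superset := fun ⟨C, h⟩ hs => ⟨C, fun k => le_trans (Nat.cast_le.2 (Finset.card_le_card
    (Finset.monotone_filter_right _ fun n _ hn => mt (@hs n) hn))) (h k)⟩
  inter_sets := fun ⟨C, h⟩ ⟨C', h'⟩ => ⟨C + C', fun k => le_trans (by
    simp only [mem_inter_iff, not_and_or, Finset.filter_or]
    exact_mod_cast Finset.card_union_le _ _) (add_le_add (h k) (h' k))⟩

instance : G.NeBot := ⟨fun h => by
  obtain ⟨C, hC⟩ : ∅ ∈ G := empty_mem_iff_bot.2 h
  obtain ⟨k, hk⟩ := exists_nat_gt C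
  have := hk.trans_le' (hC k)
  simp [B, add_sq] at this
  omega⟩

theorem G_lim (f : StrongDual ℝ C(D, ℝ)) : Tendsto (fun n => f (co (some n))) G (𝓝 (f (co none))) := by
  refine Metric.tendsto_nhds.2 fun ε hε => ⟨‖f‖ * 2 / ε, fun k => ?_⟩
  let y : ℕ → C(D, ℝ) := fun n => co (some n) - co none
  have h1 := f.le_opNorm_of_le (x := ∑ n ∈ B k, (SignType.sign (f (y n)) : ℝ) • y n) (c := 2)
    ((ContinuousMap.norm_le _ two_pos.le).2 fun d => by
      have h2 : ∀ n, |((SignType.sign (f (y n)) : ℝ) • y n) d| ≤ 2 := fun n => by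
        have := abs_sub (sg (d.1 (some n))) (sg (d.1 none))
        rw [abs_sg, abs_sg] at this
        rw [ContinuousMap.smul_apply, smul_eq_mul, abs_mul]
        change _ * |sg (d.1 (some n)) - sg (d.1 none)| ≤ _
        rcases SignType.trichotomy (SignType.sign (f (y n))) with h | h | h <;>
          simp [h] <;> linarith
      rw [ContinuousMap.sum_apply]
      by_cases h : ∃ n ∈ B k, d.1 (some n) ≠ d.1 none
      · obtain ⟨n, hn, h⟩ := h
        rw [Finset.sum_eq_single_of_mem n hn fun m hm hmn => ?_]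
        · exact h2 n
        · have := d.2 m n ((mem_B.1 hm).symm.trans (mem_B.1 hn))
          simp_all [y, co]
      · push Not at h
        rw [Finset.sum_eq_zero fun n hn => by simp [y, co, h n hn]]
        simp)
  have h2 : f (∑ n ∈ B k, (SignType.sign (f (y n)) : ℝ) • y n) = ∑ n ∈ B k, |f (y n)| := by
    rw [map_sum]
    refine Finset.sum_congr rfl fun j _ => ?_
    rcases lt_trichotomy (f (y j)) 0 with h | h | h <;> simp [h, abs_of_neg, abs_of_pos]
  rw [le_div_iff₀ hε, ← nsmul_eq_mul]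
  refine (Finset.card_nsmul_le_sum _ (fun n => |f (y n)|) _ fun n hn => ?_).trans
    ((Finset.sum_le_sum_of_subset_of_nonneg (Finset.filter_subset _ _)
      fun _ _ _ => abs_nonneg _).trans ((h2.ge.trans (le_abs_self _)).trans h1))
  simpa [y, Real.dist_eq] using (Finset.mem_filter.1 hn).2

noncomputable def Ts : StrongDual ℝ C(D, ℝ) →L[ℝ] ℕ →ᵇ ℝ := LinearMap.mkContinuous
  { toFun := fun f : StrongDual ℝ C(D, ℝ) => ofNormedAddCommGroupDiscrete (fun n => f (co (some n))) ‖f‖
      fun n => f.unit_le_opNorm _ (co_le _)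
    map_add' := fun _ _ => by ext; simp
    map_smul' := fun _ _ => by ext; simp } 1 fun f => by
      rw [one_mul]
      exact (BoundedContinuousFunction.norm_le (norm_nonneg f)).2
        fun n => f.unit_le_opNorm _ (co_le _)

theorem not_Q1 {ε : ℝ} (hε : 0 < ε) {m : StrongDual ℝ (ℕ →ᵇ ℝ)} (hm : IsQ ε m) : ¬ Q1 := by
  intro h
  obtain ⟨v, h1, h2⟩ := dirac (Ultrafilter.of G)
  let t := 1 / (‖m‖ + 2)
  have ht : 0 < t := by positivity
  have ht' : t * (‖m‖ + 2) = 1 := by simp only [t]; field_simp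
  have ht1 : 0 < 1 - t := by nlinarith [norm_nonneg m]
  have h3 : ∀ A, 0 ≤ v (ind A) ∧ v (ind A) ≤ 1 := fun A => by rw [h2]; split_ifs <;> simp
  have := h (t * ε) (t • m + (1 - t) • v) (by positivity) ⟨fun A => ?_, fun A hA => ?_,
    fun g hg => ?_⟩ C(D, ℝ) _ ((t • m + (1 - t) • v).comp Ts) lorth
    (fun f s hs => congrArg (t • m + (1 - t) • v) (ext fun n => (hs n).symm)) (-(1 - t) • co none)
  · have h4 : ‖co none‖ = 1 := (co_le _).antisymm ((abs_sg _).symm.trans_le
      ((co none).norm_coe_le_norm (Classical.arbitrary D)))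
    have h5 : ‖NormedSpace.inclusionInDoubleDual ℝ _ (-(1 - t) • co none) +
        (t • m + (1 - t) • v).comp Ts‖ ≤ t * ‖m‖ :=
      ContinuousLinearMap.opNorm_le_bound _ (by positivity) fun f => by
        have : v (Ts f) = f (co none) :=
          tendsto_nhds_unique (h1 _) ((G_lim f).mono_left (Ultrafilter.of_le _))
        have h6 := m.le_opNorm_of_le (x := Ts f) ((BoundedContinuousFunction.norm_le
          (norm_nonneg f)).2 fun n => f.unit_le_opNorm _ (co_le _))
        simp only [_root_.add_apply, ContinuousLinearMap.comp_apply, _root_.smul_apply, this, map_smul,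
          NormedSpace.dual_def, smul_eq_mul]
        rw [show -(1 - t) * f (co none) + (t * m (Ts f) + (1 - t) * f (co none)) = t * m (Ts f) by
          ring, norm_mul, Real.norm_of_nonneg ht.le, mul_assoc]
        exact mul_le_mul_of_nonneg_left (by simpa using h6) ht.le
    rw [norm_smul, h4, norm_neg, Real.norm_of_nonneg ht1.le] at this
    have := (le_add_of_nonneg_right (by positivity)).trans (this.trans h5)
    nlinarith
  · simp only [_root_.add_apply, _root_.smul_apply, smul_eq_mul]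
    constructor <;> nlinarith [hm.1 A |>.1, hm.1 A |>.2, (h3 A).1, (h3 A).2]
  · have : A ∉ Ultrafilter.of G := Ultrafilter.compl_mem_iff_notMem.1 (Ultrafilter.of_le G
      ⟨hA.toFinset.card, fun k => Nat.cast_le.2 (Finset.card_le_card fun n hn => by
        simp only [Finset.mem_filter] at hn
        simpa using hn.2)⟩)
    simp [hm.2.1 A hA, h2, this]
  · obtain ⟨A, h4, h5⟩ := hm.2.2 g hg
    refine ⟨A, h4, ?_⟩
    simp only [_root_.add_apply, _root_.smul_apply, smul_eq_mul]
    nlinarith [(h3 A).1]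

end Pool.Agent.H.MP_8a0948_an
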